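import Pool.Agent.helper13.UN.SpecG

/-!
# UN, block H, row SGN: a character of `(𝓞 K / f)ˣ × signs` is the product of a primitive character modulo `f` and of signs
-/

set_option autoImplicit false

open NumberField Complex

namespace Pool.Agent.UN

section SGN
variable {K : Type} [Field K] [NumberField K]

theorem SGN_cop {f : Ideal (𝓞 K)} {x y : 𝓞 K} (h : x - y ∈ f) (hx : Ideal.span {x} ⊔ f = ⊤) : Ideal.span {y} ⊔ f = ⊤ := by
  rw [eq_top_iff, ← hx]
  refine sup_le ?_ le_sup_right
  rw [Ideal.span_singleton_le_iff_mem]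
  have h1 : x = y + (x - y) := by ring
  rw [h1]
  exact add_mem (Ideal.mem_sup_left (Ideal.mem_span_singleton_self y)) (Ideal.mem_sup_right h)

/-- a totally positive element in the class of `x` -/
theorem SGN_tp (f : Ideal (𝓞 K)) (hf : f ≠ ⊥) (x : 𝓞 K) :
    ∃ y : 𝓞 K, y ≠ 0 ∧ y - x ∈ f ∧ ∀ φ : K →+* ℝ, 0 < φ ((y : 𝓞 K) : K) := by
  have hN : Ideal.absNorm f ≠ 0 := fun h => hf (Ideal.absNorm_eq_zero_iff.mp h)
  have hNf : ((Ideal.absNorm f : ℕ) : 𝓞 K) ∈ f := Ideal.absNorm_mem f
  have hN1 : (1 : ℝ) ≤ (Ideal.absNorm f : ℕ) := by exact_mod_cast Nat.one_le_iff_ne_zero.mpr hN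
  obtain ⟨k, hk⟩ := exists_nat_gt (∑ φ : K →+* ℝ, |φ (x : K)|)
  have key : ∀ j : ℕ, k ≤ j → ∀ φ : K →+* ℝ, 0 < φ ((x + (j : 𝓞 K) * ((Ideal.absNorm f : ℕ) : 𝓞 K) : 𝓞 K) : K) := by
    intro j hj φ
    have h1 : φ ((x + (j : 𝓞 K) * ((Ideal.absNorm f : ℕ) : 𝓞 K) : 𝓞 K) : K) = φ (x : K) + (j : ℝ) * (Ideal.absNorm f : ℕ) := by
      push_cast
      rw [map_add, map_mul, map_natCast, map_natCast]
    rw [h1]
    have h2 : |φ (x : K)| ≤ ∑ φ : K →+* ℝ, |φ (x : K)| :=
      Finset.single_le_sum (f := fun φ : K →+* ℝ => |φ (x : K)|) (fun _ _ => abs_nonneg _) (Finset.mem_univ φ)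
    have h3 : (k : ℝ) ≤ j := by exact_mod_cast hj
    have h4 : (j : ℝ) * 1 ≤ (j : ℝ) * (Ideal.absNorm f : ℕ) := mul_le_mul_of_nonneg_left hN1 (Nat.cast_nonneg j)
    have h5 := neg_abs_le (φ (x : K))
    linarith
  have hmem : ∀ j : ℕ, x + (j : 𝓞 K) * ((Ideal.absNorm f : ℕ) : 𝓞 K) - x ∈ f := by
    intro j
    rw [add_sub_cancel_left]
    exact Ideal.mul_mem_left _ _ hNf
  by_cases h0 : x + (k : 𝓞 K) * ((Ideal.absNorm f : ℕ) : 𝓞 K) = 0
  · refine ⟨x + ((k + 1 : ℕ) : 𝓞 K) * ((Ideal.absNorm f : ℕ) : 𝓞 K), fun h1 => ?_, hmem _, key _ (Nat.le_succ k)⟩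
    have h2 : ((Ideal.absNorm f : ℕ) : 𝓞 K) = 0 := by
      have h3 : x + ((k + 1 : ℕ) : 𝓞 K) * ((Ideal.absNorm f : ℕ) : 𝓞 K) =
          (x + (k : 𝓞 K) * ((Ideal.absNorm f : ℕ) : 𝓞 K)) + ((Ideal.absNorm f : ℕ) : 𝓞 K) := by
        push_cast
        ring
      rw [h3, h0, zero_add] at h1
      exact h1
    exact hN (Nat.cast_eq_zero.mp h2)
  · exact ⟨_, h0, hmem k, key k (le_refl k)⟩

theorem SGN_c1 : (((1 : 𝓞 K) : 𝓞 K) : K) = 1 := map_one (algebraMap (𝓞 K) K)

theorem SGN_cm (x y : 𝓞 K) : ((x * y : 𝓞 K) : K) = (x : K) * (y : K) := map_mul (algebraMap (𝓞 K) K) x y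

theorem SGN_cp {ι : Type} (s : Finset ι) (u : ι → 𝓞 K) : ((∏ w ∈ s, u w : 𝓞 K) : K) = ∏ w ∈ s, (u w : K) :=
  map_prod (algebraMap (𝓞 K) K) u s

theorem SGN_uniq {φ ψ : K →+* ℝ} (h : InfinitePlace.mk (Complex.ofRealHom.comp φ) = InfinitePlace.mk (Complex.ofRealHom.comp ψ)) : φ = ψ := by
  have hconj : ComplexEmbedding.conjugate (Complex.ofRealHom.comp φ) = Complex.ofRealHom.comp φ := by
    refine RingHom.ext fun x => ?_
    rw [ComplexEmbedding.conjugate_coe_eq]
    exact Complex.conj_ofReal _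
  have h1 : Complex.ofRealHom.comp φ = Complex.ofRealHom.comp ψ := by
    rcases InfinitePlace.mk_eq_iff.mp h with h | h
    · exact h
    · rw [hconj] at h
      exact h
  refine RingHom.ext fun x => ?_
  have h2 := congrArg (fun g : K →+* ℂ => g x) h1
  exact Complex.ofReal_injective h2

end SGN

theorem SGN (hSAP : SAP_stmt) : SGN_stmt := by
  intro K _ _ f G hG
  classical
  have hf : f ≠ ⊥ := hG.g0
  have hN : Ideal.absNorm f ≠ 0 := fun h => hf (Ideal.absNorm_eq_zero_iff.mp h)
  have hNf : Ideal.span {((Ideal.absNorm f : ℕ) : 𝓞 K)} ≤ f := by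
    rw [Ideal.span_singleton_le_iff_mem]
    exact Ideal.absNorm_mem f
  choose T hT0 hTf hTp using SGN_tp f hf
  -- `F x = G y` for all totally positive `y` in the class of `x`
  have hF : ∀ x y : 𝓞 K, y ≠ 0 → y - x ∈ f → (∀ φ : K →+* ℝ, 0 < φ ((y : 𝓞 K) : K)) → G (T x) = G y := by
    intro x y hy0 hyx hy
    refine hG.per _ _ (hT0 x) hy0 ?_ fun φ => mul_pos (hTp x φ) (hy φ)
    have h1 : T x - y = (T x - x) - (y - x) := by ring
    rw [h1]
    exact sub_mem (hTf x) hyx
  have hone : ∀ φ : K →+* ℝ, 0 < φ (((1 : 𝓞 K) : 𝓞 K) : K) := by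
    intro φ
    rw [SGN_c1, map_one]
    exact one_pos
  -- the elements `t w`
  let mkr : (K →+* ℝ) → InfinitePlace K := fun φ => InfinitePlace.mk (Complex.ofRealHom.comp φ)
  have ht : ∀ w : InfinitePlace K, ∃ t : 𝓞 K, t ≠ 0 ∧ t - 1 ∈ f ∧
      ∀ φ : K →+* ℝ, (mkr φ = w → φ ((t : 𝓞 K) : K) < 0) ∧ (mkr φ ≠ w → 0 < φ ((t : 𝓞 K) : K)) := by
    intro w
    obtain ⟨t, h0, h1, h2⟩ := hSAP K (Ideal.absNorm f) {φ | mkr φ = w} hN
    exact ⟨t, h0, hNf h1, fun φ => ⟨fun h => (h2 φ).1 h, fun h => (h2 φ).2 h⟩⟩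
  choose t ht0 htf htφ using ht
  have htsq : ∀ w, G (t w) * G (t w) = 1 := by
    intro w
    rw [← hG.mul, ← hG.one]
    refine hG.per _ _ (mul_ne_zero (ht0 w) (ht0 w)) one_ne_zero ?_ fun φ => ?_
    · have h1 : t w * t w - 1 = (t w + 1) * (t w - 1) := by ring
      rw [h1]
      exact Ideal.mul_mem_left _ _ (htf w)
    · refine mul_pos ?_ (hone φ)
      have h1 : φ (((t w * t w : 𝓞 K) : 𝓞 K) : K) = φ (t w : K) * φ (t w : K) := by
        rw [SGN_cm, map_mul]
      rw [h1]
      refine mul_self_pos.mpr fun h2 => ?_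
      have h3 : ((t w : 𝓞 K) : K) = 0 := (map_eq_zero φ).mp h2
      exact ht0 w (RingOfIntegers.ext h3)
  let e : InfinitePlace K → ℕ := fun w => if G (t w) = 1 then 0 else 1
  have hGe : ∀ w, G (t w) = (-1) ^ (e w) := by
    intro w
    show G (t w) = (-1) ^ (if G (t w) = 1 then 0 else 1)
    split_ifs with h
    · rw [h, pow_zero]
    · rw [pow_one]
      exact (mul_self_eq_one_iff.mp (htsq w)).resolve_left h
  have he1 : ∀ w, e w ≤ 1 := by
    intro w
    show (if G (t w) = 1 then 0 else 1) ≤ 1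
    split_ifs <;> omega
  have hec : ∀ w : InfinitePlace K, w.IsComplex → e w = 0 := by
    intro w hw
    have h1 : G (t w) = 1 := by
      rw [← hG.one]
      refine hG.per _ _ (ht0 w) one_ne_zero (htf w) fun φ => mul_pos ((htφ w φ).2 fun h => ?_) (hone φ)
      have h2 : w.IsReal := by
        rw [← h]
        refine ⟨Complex.ofRealHom.comp φ, ?_, rfl⟩
        rw [ComplexEmbedding.isReal_iff]
        refine RingHom.ext fun x => ?_
        rw [ComplexEmbedding.conjugate_coe_eq]
        exact Complex.conj_ofReal _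
      exact (InfinitePlace.not_isReal_iff_isComplex.mpr hw) h2
    show (if G (t w) = 1 then 0 else 1) = 0
    rw [if_pos h1]
  refine ⟨e, fun x => G (T x), ?_, he1, hec, fun x hx => ?_⟩
  · refine { one := ?_, mul := ?_, unit := ?_, zero := ?_, per := ?_, prim := ?_ }
    · rw [hF 1 1 one_ne_zero (by rw [sub_self]; exact zero_mem _) hone]
      exact hG.one
    · intro x y
      show G (T (x * y)) = G (T x) * G (T y)
      rw [hF (x * y) (T x * T y) (mul_ne_zero (hT0 x) (hT0 y)) ?_ ?_, hG.mul]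
      · have h1 : T x * T y - x * y = T x * (T y - y) + y * (T x - x) := by ring
        rw [h1]
        exact add_mem (Ideal.mul_mem_left _ _ (hTf y)) (Ideal.mul_mem_left _ _ (hTf x))
      · intro φ
        rw [SGN_cm, map_mul]
        exact mul_pos (hTp x φ) (hTp y φ)
    · intro x hx
      refine hG.unit _ (hT0 x) (SGN_cop ?_ hx)
      have h1 : x - T x = -(T x - x) := by ring
      rw [h1]
      exact neg_mem (hTf x)
    · intro x hx
      exact hG.zero _ fun h => hx (SGN_cop (hTf x) h)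
    · intro x y hxy
      refine hF x (T y) (hT0 y) ?_ (hTp y)
      have h1 : T y - x = (T y - y) - (x - y) := by ring
      rw [h1]
      exact sub_mem (hTf y) hxy
    · intro g hg
      obtain ⟨x, hx0, hxg, hxf, hxφ, hGx⟩ := hG.prim g hg
      refine ⟨x, hxg, hxf, ?_⟩
      show G (T x) ≠ 1
      rw [hF x x hx0 (by rw [sub_self]; exact zero_mem _) hxφ]
      exact hGx
  · -- the signs of `x`
    let neg : InfinitePlace K → Prop := fun w => ∃ φ : K →+* ℝ, mkr φ = w ∧ φ ((x : 𝓞 K) : K) < 0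
    have hxφ : ∀ φ : K →+* ℝ, φ ((x : 𝓞 K) : K) ≠ 0 := by
      intro φ h
      exact hx (RingOfIntegers.ext ((map_eq_zero φ).mp h))
    let u : InfinitePlace K → 𝓞 K := fun w => if neg w then t w else 1
    have hu : ∀ w, u w = if neg w then t w else 1 := fun _ => rfl
    have hu0 : ∀ w, u w ≠ 0 := by
      intro w
      rw [hu]
      split_ifs
      · exact ht0 w
      · exact one_ne_zero
    have huf : ∀ w, u w - 1 ∈ f := by
      intro w
      rw [hu]
      split_ifs
      · exact htf w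
      · rw [sub_self]
        exact zero_mem _
    have hprod : (∏ w, u w) - 1 ∈ f := by
      rw [← Ideal.Quotient.eq_zero_iff_mem, map_sub, map_one, map_prod, sub_eq_zero]
      refine Finset.prod_eq_one fun w _ => ?_
      have h1 := Ideal.Quotient.eq_zero_iff_mem.mpr (huf w)
      rw [map_sub, map_one, sub_eq_zero] at h1
      exact h1
    have hFx : G (T x) = G (x * ∏ w, u w) := by
      refine hF x _ (mul_ne_zero hx (Finset.prod_ne_zero_iff.mpr fun w _ => hu0 w)) ?_ fun φ => ?_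
      · have h1 : x * ∏ w, u w - x = x * ((∏ w, u w) - 1) := by ring
        rw [h1]
        exact Ideal.mul_mem_left _ _ hprod
      · have h1 : φ (((x * ∏ w, u w : 𝓞 K) : 𝓞 K) : K) = φ (x : K) * ∏ w, φ ((u w : 𝓞 K) : K) := by
          rw [SGN_cm, map_mul, SGN_cp, map_prod]
        rw [h1, ← Finset.mul_prod_erase Finset.univ _ (Finset.mem_univ (mkr φ)), ← mul_assoc]
        refine mul_pos ?_ (Finset.prod_pos fun w hw => ?_)
        · rw [hu]
          split_ifs with h2
          · obtain ⟨ψ, h3, h4⟩ := h2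
            have h5 : ψ = φ := SGN_uniq h3
            rw [h5] at h4
            exact mul_pos_of_neg_of_neg h4 ((htφ _ φ).1 rfl)
          · have h3 : 0 < φ ((x : 𝓞 K) : K) := lt_of_le_of_ne (not_lt.mp fun h4 => h2 ⟨φ, rfl, h4⟩) (Ne.symm (hxφ φ))
            rw [SGN_c1, map_one, mul_one]
            exact h3
        · have hne : w ≠ mkr φ := Finset.ne_of_mem_erase hw
          rw [hu]
          split_ifs
          · exact (htφ w φ).2 (Ne.symm hne)
          · exact hone φ
    have hmapprod : ∀ s : Finset (InfinitePlace K), G (∏ w ∈ s, u w) = ∏ w ∈ s, G (u w) := by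
      intro s
      induction s using Finset.induction_on with
      | empty => rw [Finset.prod_empty, Finset.prod_empty, hG.one]
      | insert w s hw ih => rw [Finset.prod_insert hw, Finset.prod_insert hw, hG.mul, ih]
    have hGu : ∀ w, G (u w) = (w.embedding (x : K) / (‖w.embedding (x : K)‖ : ℂ)) ^ (e w) := by
      intro w
      rcases w.isReal_or_isComplex with hw | hw
      · have hφ : ∀ y : K, ((InfinitePlace.embedding_of_isReal hw y : ℝ) : ℂ) = w.embedding y := fun y => InfinitePlace.embedding_of_isReal_apply hw y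
        have hmk : mkr (InfinitePlace.embedding_of_isReal hw) = w := by
          have h1 : Complex.ofRealHom.comp (InfinitePlace.embedding_of_isReal hw) = w.embedding := RingHom.ext fun y => hφ y
          show InfinitePlace.mk (Complex.ofRealHom.comp (InfinitePlace.embedding_of_isReal hw)) = w
          rw [h1, InfinitePlace.mk_embedding]
        rw [← hφ]
        by_cases hneg : InfinitePlace.embedding_of_isReal hw (x : K) < 0
        · have h1 : neg w := ⟨_, hmk, hneg⟩
          rw [hu, if_pos h1, hGe]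
          congr 1
          rw [Complex.norm_real, Real.norm_eq_abs, abs_of_neg hneg]
          rw [ofReal_neg, div_neg, div_self (ofReal_ne_zero.mpr hneg.ne)]
        · have h1 : ¬ neg w := by
            rintro ⟨ψ, h2, h3⟩
            have h4 : ψ = InfinitePlace.embedding_of_isReal hw := SGN_uniq (h2.trans hmk.symm)
            rw [h4] at h3
            exact hneg h3
          have h2 : 0 < InfinitePlace.embedding_of_isReal hw (x : K) := lt_of_le_of_ne (not_lt.mp hneg) (Ne.symm (hxφ _))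
          rw [hu, if_neg h1, hG.one, Complex.norm_real, Real.norm_eq_abs, abs_of_pos h2, div_self (ofReal_ne_zero.mpr h2.ne'), one_pow]
      · have h1 := hGe w
        rw [hec w hw, pow_zero] at h1
        rw [hec w hw, pow_zero, hu]
        split_ifs
        · exact h1
        · exact hG.one
    have hsq : ∀ w, G (u w) * G (u w) = 1 := by
      intro w
      rw [hu]
      split_ifs
      · exact htsq w
      · rw [hG.one, one_mul]
    show G x = G (T x) * _
    rw [hFx, hG.mul, hmapprod, mul_assoc]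
    have h1 : (∏ w, G (u w)) * ∏ w : InfinitePlace K, (w.embedding (x : K) / (‖w.embedding (x : K)‖ : ℂ)) ^ (e w) = 1 := by
      rw [← Finset.prod_mul_distrib]
      refine Finset.prod_eq_one fun w _ => ?_
      rw [← hGu w]
      exact hsq w
    rw [h1, mul_one]

end Pool.Agent.UN
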