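import Pool.Agent.helper1.UN.SpecU

/-!
# UN, block H, row VMC: the Mellin transform of the theta series of one class
-/

set_option autoImplicit false

open NumberField Complex MeasureTheory NumberField.Units NumberField.Units.dirichletUnitTheorem

open scoped Classical

namespace Pool.Agent.UN

theorem VMC_int {ι : Type} [Countable ι] {α : Type} [MeasurableSpace α] {μ : Measure α} {f : ι → α → ℂ}
    (hf : ∀ i, Integrable (f i) μ) (hs : Summable fun i => ∫ a, ‖f i a‖ ∂μ) : Integrable (fun a => ∑' i, f i a) μ := by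
  have hm : ∀ i, AEStronglyMeasurable (f i) μ := fun i => (hf i).1
  have hone : ∀ i : ι, ∫⁻ a, ‖f i a‖ₑ ∂μ = ‖∫ a, ‖f i a‖ ∂μ‖ₑ := by
    intro i
    dsimp [enorm]
    rw [lintegral_coe_eq_integral _ (hf i).norm, ENNReal.coe_nnreal_eq, coe_nnnorm,
      Real.norm_of_nonneg (integral_nonneg (fun a => norm_nonneg (f i a)))]
    simp only [coe_nnnorm]
  have hne : ∑' i, ∫⁻ a, ‖f i a‖ₑ ∂μ ≠ ⊤ := by
    rw [funext hone]
    exact ENNReal.tsum_coe_ne_top_iff_summable.2 <| NNReal.summable_coe.1 hs.abs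
  have hae : ∀ᵐ a ∂μ, Summable (fun i => ‖f i a‖) := by
    refine summable_norm_of_tsum_eLpNorm_ne_top (p := 1) le_rfl hm ?_
    have h1 : ∀ i, eLpNorm (f i) 1 μ = ∫⁻ a, ‖f i a‖ₑ ∂μ := fun i => eLpNorm_one_eq_lintegral_enorm
    rw [funext h1]
    exact hne
  have hmeas : AEStronglyMeasurable (fun a => ∑' i, f i a) μ := by
    refine aestronglyMeasurable_of_tendsto_ae Filter.atTop (f := fun (s : Finset ι) a => ∑ i ∈ s, f i a)
      (fun s => s.aestronglyMeasurable_fun_sum fun i _ => hm i) ?_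
    filter_upwards [hae] with a ha
    exact ha.of_norm.hasSum
  refine ⟨hmeas, ?_⟩
  have h1 : ∫⁻ a, ‖∑' i, f i a‖ₑ ∂μ ≤ ∫⁻ a, ∑' i, ‖f i a‖ₑ ∂μ := lintegral_mono fun a => enorm_tsum_le_tsum_enorm
  rw [lintegral_tsum (fun i => (hm i).enorm)] at h1
  exact lt_of_le_of_lt h1 (lt_top_iff_ne_top.mpr hne)

theorem VMC (hVLG : VLG_stmt) (hVNF : VNF_stmt) (hVTQ : VTQ_stmt) (hVMX : VMX_stmt) : VMC_stmt := by
  intro K _ _ κ₀ b χ τ a F s hκ hF hb hχ hχ0 hs hsum
  obtain ⟨g₀, hg₀, hg⟩ := hVLG K κ₀ χ τ a s hκ hs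
  have hZ : Countable (𝓞 K) := Finsupp.Countable.of_moduleFinite (R := ℤ)
  let g : 𝓞 K → ℝ × logSpace K → ℂ := fun x p => tq χ τ a (Yl (Real.exp p.1) p.2) x * cexp ((Module.finrank ℚ K : ℂ) * s / 2 * p.1)
  have hgd : ∀ x p, g x p = tq χ τ a (Yl (Real.exp p.1) p.2) x * cexp ((Module.finrank ℚ K : ℂ) * s / 2 * p.1) := fun _ _ => rfl
  obtain ⟨hA, hB, hC⟩ := hVNF K b F g (fun J => κ₀ * gf τ a s * (χ J * (Nm J : ℂ) ^ (-s))) (fun J => g₀ * (‖χ J‖ * Nm J ^ (-s.re))) hF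
    (fun u x p => by rw [hgd, hgd, hVTQ]) (fun p => by
      rw [hgd]
      unfold tq
      rw [Ideal.span_singleton_eq_bot.mpr rfl, hχ0, zero_mul, zero_mul])
    (fun x hx => (hg x hx).1) (fun x hx => (hg x hx).2.1) (fun x hx => (hg x hx).2.2) (hsum.mul_left g₀)
  have hμ : (volume : Measure (ℝ × logSpace K)).restrict ((Set.univ : Set ℝ) ×ˢ F) = (volume : Measure ℝ).prod ((volume : Measure (logSpace K)).restrict F) := by
    rw [Measure.volume_eq_prod, ← Measure.prod_restrict, Measure.restrict_univ]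
  have hts : ∀ p : ℝ × logSpace K, ∑' x : b, g (x : 𝓞 K) p = Th0 b χ τ a (Yl (Real.exp p.1) p.2) * cexp ((Module.finrank ℚ K : ℂ) * s / 2 * p.1) := by
    intro p
    unfold Th0
    rw [← tsum_mul_right]
  have hint : Integrable (fun p : ℝ × logSpace K => Th0 b χ τ a (Yl (Real.exp p.1) p.2) * cexp ((Module.finrank ℚ K : ℂ) * s / 2 * p.1))
      ((volume : Measure ℝ).prod ((volume : Measure (logSpace K)).restrict F)) := by
    have h1 := VMC_int (μ := (volume : Measure (ℝ × logSpace K)).restrict ((Set.univ : Set ℝ) ×ˢ F)) (f := fun (x : b) p => g (x : 𝓞 K) p) (fun x => hA x) hB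
    rw [hμ] at h1
    rw [← funext hts]
    exact h1
  have hval : ∫ p, Th0 b χ τ a (Yl (Real.exp p.1) p.2) * cexp ((Module.finrank ℚ K : ℂ) * s / 2 * p.1) ∂((volume : Measure ℝ).prod ((volume : Measure (logSpace K)).restrict F)) =
      (torsionOrder K : ℂ) * (κ₀ * gf τ a s) * ∑' I : Pr b, χ (I : Ideal (𝓞 K)) * (Nm (I : Ideal (𝓞 K)) : ℂ) ^ (-s) := by
    have h1 := integral_tsum_of_summable_integral_norm (μ := (volume : Measure (ℝ × logSpace K)).restrict ((Set.univ : Set ℝ) ×ˢ F))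
      (F := fun (x : b) p => g (x : 𝓞 K) p) (fun x => hA x) hB
    rw [hC, hμ] at h1
    rw [← funext hts, ← h1, tsum_mul_left]
    ring
  have hinner : ∀ t : ℝ, ∫ l in F, Th0 b χ τ a (Yl (Real.exp t) l) * cexp ((Module.finrank ℚ K : ℂ) * s / 2 * t) =
      cexp ((Module.finrank ℚ K : ℂ) * s / 2 * t) * ∫ l in F, Th0 b χ τ a (Yl (Real.exp t) l) := by
    intro t
    rw [integral_mul_const]
    exact mul_comm _ _
  obtain ⟨hM1, hM2⟩ := hVMX (fun ρ : ℝ => ∫ l in F, Th0 b χ τ a (Yl ρ l)) ((Module.finrank ℚ K : ℂ) * s / 2)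
  constructor
  · rw [hM2]
    have h1 := hint.integral_prod_left
    rw [funext hinner] at h1
    exact h1
  · rw [hM1, ← hval, integral_prod _ hint]
    exact integral_congr_ae (Filter.Eventually.of_forall fun t => (hinner t).symm)

end Pool.Agent.UN
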